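import Pool.Agent.W356.BW.Re

/-! Project BW, part N3: a weak near-unanimity operation absorbing like a majority. -/

set_option autoImplicit false
set_option linter.all false

namespace Pool.Agent.W356.BW

open Pool.Agent.W434.BW

/-- the block data for N3 -/
def D3 {A : Type} (E : Ops A) (C P : Set A) (N : ℕ) : Blk A where
  N := N
  B := {p : Fin 3 → Fin N // StrictMono p}
  n := fun _ => 3
  idx := fun b => b.1
  F := fun _ => {g | g ∈ E 3 ∧ Maj3 g C P}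
  F' := fun _ => {g | g ∈ E 3 ∧ Maj3 g C P}
  Cp := fun c d => ∃ g : (Fin 3 → A) → A, (g ∈ E 3 ∧ Maj3 g C P) ∧ minor g 0 = c ∧ minor g 1 = d

theorem k2_aux {A : Type} {E : Ops A} (hE : IsCl E) {C P : Set A} {g : (Fin 3 → A) → A}
    (hg : g ∈ E 3 ∧ Maj3 g C P) {p q : Fin 3} (hpq : p ≠ q) :
    ∃ h : (Fin 3 → A) → A, (h ∈ E 3 ∧ Maj3 h C P) ∧ minor h 0 = minor g p ∧ minor h 1 = minor g q := by
  obtain ⟨σ, hσ0, hσ1⟩ := exists_perm p q hpq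
  refine ⟨fun x => g (fun i => x (σ.symm i)), ⟨re_mem hE hg.1 _, maj_re hg.2 σ.symm⟩, ?_, ?_⟩
  · refine minor_re g σ.symm 0 p (fun i => ?_)
    rw [← hσ0, Equiv.symm_apply_eq]
  · refine minor_re g σ.symm 1 q (fun i => ?_)
    rw [← hσ1, Equiv.symm_apply_eq]

theorem k1_aux {A : Type} {E : Ops A} (hE : IsCl E) {C P : Set A} {g : (Fin 3 → A) → A}
    (hg : g ∈ E 3 ∧ Maj3 g C P) {p q : Fin 3} (hpq : p ≠ q) :
    ∃ h : (Fin 3 → A) → A, (h ∈ E 3 ∧ Maj3 h C P) ∧ minor h p = minor g 0 ∧ minor h q = minor g 1 := by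
  obtain ⟨σ, hσ0, hσ1⟩ := exists_perm p q hpq
  refine ⟨fun x => g (fun i => x (σ i)), ⟨re_mem hE hg.1 _, maj_re hg.2 σ⟩, ?_, ?_⟩
  · refine minor_re g σ p 0 (fun i => ?_)
    rw [← hσ0, σ.injective.eq_iff]
  · refine minor_re g σ q 1 (fun i => ?_)
    rw [← hσ1, σ.injective.eq_iff]

theorem D3_ok {A : Type} {E : Ops A} (hE : IsCl E) {C P : Set A} (hC : ClSub E C)
    (ht : ∃ t ∈ E 3, Maj3 t C P) (N : ℕ) : (D3 E C P N).Ok (clA E) (clA E) := by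
  have hsub : Sub (piA (clA E) (Fin 3 → A)) {g | g ∈ E 3 ∧ Maj3 g C P} := by
    intro ω x hx
    refine ⟨hE.2 ω.1 3 ω.2.1 x ω.2.2 (fun i => (hx i).1), ?_⟩
    intro c hc d hd z hz
    refine ⟨hC ω.1 ω.2.1 ω.2.2 _ (fun i => ((hx i).2 c hc d hd z hz).1),
      hC ω.1 ω.2.1 ω.2.2 _ (fun i => ((hx i).2 c hc d hd z hz).2.1),
      hC ω.1 ω.2.1 ω.2.2 _ (fun i => ((hx i).2 c hc d hd z hz).2.2)⟩
  refine ⟨fun b => ?_, fun b => b.2.injective, fun b => hsub, fun b => hsub,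
    fun b x y c d => Iff.rfl, ?_, ?_, ?_, ?_, ?_⟩
  · show 2 ≤ 3
    norm_num
  · rintro c d ⟨g, hg, rfl, rfl⟩
    exact k2_aux hE hg (by decide)
  · obtain ⟨t, ht1, ht2⟩ := ht
    exact ⟨_, _, t, ⟨ht1, ht2⟩, rfl, rfl⟩
  · rintro c d ⟨g, hg, rfl, rfl⟩
    exact ⟨minor g 2, k2_aux hE hg (by decide), k2_aux hE hg (by decide)⟩
  · rintro b p q hpq c d ⟨g, hg, rfl, rfl⟩
    exact k1_aux hE hg hpq
  · intro b g hg p q hpq
    exact k2_aux hE hg hpq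

theorem n3 (hc : S_clo) (hn : S_nc) : S_n3 := by
  intro A _ E u C P hE hI hT hC hP hCP ht
  obtain ⟨N, hN⟩ : ∃ N, N = 2 * Nat.card (A → A → A) + 1 := ⟨_, rfl⟩
  haveI : Nonempty (A → A → A) := ⟨fun a _ => a⟩
  haveI : Finite (A → A) := Pi.finite
  haveI : Finite (A → A → A) := Pi.finite
  have hcard : 0 < Nat.card (A → A → A) := Nat.card_pos
  have h3N : 3 ≤ N := by omega
  haveI : Finite (D3 E C P N).B := inferInstanceAs (Finite {p : Fin 3 → Fin N // StrictMono p})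
  haveI : Nonempty (D3 E C P N).B :=
    ⟨⟨Fin.castLE h3N, fun a b h => h⟩⟩
  obtain ⟨y, g, hg, hm⟩ := hn (OpSym E) (OpSym E) (opAr E) (opAr E) A u u (clA E) (clA E)
    (D3 E C P N) hT (D3_ok hE hC ht N)
  obtain ⟨e, Y, hY⟩ := pigeon (β := A → A → A) 2 N (by omega) y
  have hgb := (hg (⟨fun i => e i, e.strictMono⟩ : {p : Fin 3 → Fin N // StrictMono p})).1
  have hmb := hm (⟨fun i => e i, e.strictMono⟩ : {p : Fin 3 → Fin N // StrictMono p})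
  obtain ⟨v, hv⟩ : ∃ v : (Fin 3 → A) → A,
      v = g (⟨fun i => e i, e.strictMono⟩ : {p : Fin 3 → Fin N // StrictMono p}) := ⟨_, rfl⟩
  rw [← hv] at hgb hmb
  refine ⟨v, hgb.1, hgb.2, wnu_of_minor v Y (fun p => ?_)⟩
  exact (hmb p).trans (hY p)

end Pool.Agent.W356.BW
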