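import Pool.Agent.W356.BW.Re

/-! Project BW, part N34: common linked weak near-unanimity operations. -/

set_option autoImplicit false
set_option linter.all false

namespace Pool.Agent.W356.BW

open Pool.Agent.W434.BW

/-- the index set of the blocks -/
abbrev BB (N : ℕ) : Type := {p : Fin 3 → Fin N // StrictMono p} ⊕ {p : Fin 4 → Fin N // StrictMono p}

/-- the sizes of the blocks -/
def nb {N : ℕ} : BB N → ℕ
  | .inl _ => 3
  | .inr _ => 4

/-- the index maps of the blocks -/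
def ib {N : ℕ} : ∀ b : BB N, Fin (nb b) → Fin N
  | .inl p => p.1
  | .inr p => p.1

/-- the block data for N34 -/
def D34 {A : Type} (E1 E2 : Ops A) (N : ℕ) : Blk A where
  N := N
  B := BB N
  n := nb
  idx := ib
  F := fun b => E1 (nb b)
  F' := fun b => E2 (nb b)
  Cp := fun c d => ∃ g ∈ E1 3, minor g 0 = c ∧ minor g 1 = d

theorem j2 {A : Type} {E : Ops A} (hE : IsCl E) {n : ℕ} {g : (Fin n → A) → A} (hg : g ∈ E n)
    {p q : Fin n} (hpq : p ≠ q) :
    ∃ h ∈ E 3, minor h 0 = minor g p ∧ minor h 1 = minor g q := by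
  refine ⟨fun x => g (fun i => x ((fun i => if i = p then 0 else if i = q then 1 else 2) i)),
    re_mem hE hg _, ?_, ?_⟩
  · refine minor_re g _ 0 p (fun i => ?_)
    by_cases h1 : i = p
    · simp [h1]
    · by_cases h2 : i = q <;> simp [h1, h2]
  · refine minor_re g _ 1 q (fun i => ?_)
    by_cases h1 : i = p
    · subst h1
      simp [hpq]
    · by_cases h2 : i = q <;> simp [h1, h2]
      exact hpq.symm

theorem j1 {A : Type} {E : Ops A} (hE : IsCl E) {n : ℕ} {g : (Fin 3 → A) → A} (hg : g ∈ E 3)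
    {p q r : Fin n} (hpq : p ≠ q) (hrp : r ≠ p) (hrq : r ≠ q) :
    ∃ h ∈ E n, minor h p = minor g 0 ∧ minor h q = minor g 1 := by
  refine ⟨fun x => g (fun i => x ((![p, q, r]) i)), re_mem hE hg _, ?_, ?_⟩
  · refine minor_re g _ p 0 (fun i => ?_)
    fin_cases i
    · simp
    · simp [hpq.symm]
    · simp [hrp]
  · refine minor_re g _ q 1 (fun i => ?_)
    fin_cases i
    · simp [hpq]
    · simp
    · simp [hrq]

theorem ex3 : ∀ p q : Fin 3, ∃ r : Fin 3, r ≠ p ∧ r ≠ q := by decide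

theorem ex4 : ∀ p q : Fin 4, ∃ r : Fin 4, r ≠ p ∧ r ≠ q := by decide

theorem ex_nb {N : ℕ} (b : BB N) (p q : Fin (nb b)) : ∃ r : Fin (nb b), r ≠ p ∧ r ≠ q := by
  rcases b with b | b
  · exact ex3 p q
  · exact ex4 p q

theorem D34_ok (hc : S_clo) {A : Type} {E1 E2 : Ops A} (h1 : IsCl E1) (h2 : IsCl E2)
    (hinv : ∀ R, Inv2 E1 R ↔ Inv2 E2 R) (N : ℕ) :
    (D34 E1 E2 N).Ok (clA E1) (clA E2) := by
  refine ⟨?_, ?_, ?_, ?_, ?_, ?_, ?_, ?_, ?_, ?_⟩
  · intro b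
    rcases b with b | b
    · show 2 ≤ 3
      norm_num
    · show 2 ≤ 4
      norm_num
  · intro b
    rcases b with b | b
    · exact b.2.injective
    · exact b.2.injective
  · intro b ω x hx
    exact h1.2 ω.1 _ ω.2.1 x ω.2.2 hx
  · intro b ω x hx
    exact h2.2 ω.1 _ ω.2.1 x ω.2.2 hx
  · intro b x y c d
    exact hc.2.2.2.2.2.2.2 A E1 E2 h1 h2 hinv _ x y c d
  · rintro c d ⟨g, hg, rfl, rfl⟩
    exact j2 h1 hg (by decide)
  · exact ⟨_, _, _, h1.1 3 0, rfl, rfl⟩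
  · rintro c d ⟨g, hg, rfl, rfl⟩
    exact ⟨minor g 2, j2 h1 hg (by decide), j2 h1 hg (by decide)⟩
  · rintro b p q hpq c d ⟨g, hg, rfl, rfl⟩
    obtain ⟨r, hr1, hr2⟩ := ex_nb b p q
    exact j1 h1 hg hpq hr1 hr2
  · intro b g hg p q hpq
    exact j2 h1 hg hpq

theorem v4 {A : Type} (w : (Fin 4 → A) → A) (Y : A → A → A) (h : ∀ p, minor w p = Y) (x y : A) :
    w ![y, x, x, x] = Y x y ∧ w ![x, y, x, x] = Y x y ∧ w ![x, x, y, x] = Y x y ∧
      w ![x, x, x, y] = Y x y := by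
  have e0 : w ![y, x, x, x] = minor w 0 x y := by
    unfold minor
    congr 1
    funext i
    fin_cases i <;> rfl
  have e1 : w ![x, y, x, x] = minor w 1 x y := by
    unfold minor
    congr 1
    funext i
    fin_cases i <;> rfl
  have e2 : w ![x, x, y, x] = minor w 2 x y := by
    unfold minor
    congr 1
    funext i
    fin_cases i <;> rfl
  have e3 : w ![x, x, x, y] = minor w 3 x y := by
    unfold minor
    congr 1
    funext i
    fin_cases i <;> rfl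
  rw [e0, e1, e2, e3, h, h, h, h]
  exact ⟨rfl, rfl, rfl, rfl⟩

theorem v3 {A : Type} (v : (Fin 3 → A) → A) (Y : A → A → A) (h : ∀ p, minor v p = Y) (x y : A) :
    v ![y, x, x] = Y x y := by
  have e0 : v ![y, x, x] = minor v 0 x y := by
    unfold minor
    congr 1
    funext i
    fin_cases i <;> rfl
  rw [e0, h]

theorem n34 (hc : S_clo) (hn : S_nc) : S_n34 := by
  intro A _ E1 E2 u1 u2 h1 h2 hI1 hI2 hinv hT
  obtain ⟨N, hN⟩ : ∃ N, N = 3 * Nat.card (A → A → A) + 1 := ⟨_, rfl⟩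
  haveI : Nonempty (A → A → A) := ⟨fun a _ => a⟩
  haveI : Finite (A → A) := Pi.finite
  haveI : Finite (A → A → A) := Pi.finite
  have hcard : 0 < Nat.card (A → A → A) := Nat.card_pos
  have h4N : 4 ≤ N := by omega
  haveI : Finite (D34 E1 E2 N).B := inferInstanceAs (Finite (BB N))
  haveI : Nonempty (D34 E1 E2 N).B :=
    ⟨(Sum.inr ⟨Fin.castLE h4N, fun a b h => h⟩ : BB N)⟩
  obtain ⟨y, g, hg, hm⟩ := hn (OpSym E1) (OpSym E2) (opAr E1) (opAr E2) A u1 u2 (clA E1) (clA E2)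
    (D34 E1 E2 N) hT (D34_ok hc h1 h2 hinv N)
  obtain ⟨e, Y, hY⟩ := pigeon (β := A → A → A) 3 N (by omega) y
  have hs3 : StrictMono (fun i : Fin 3 => e (Fin.castSucc i)) := fun a b h =>
    e.strictMono (by simpa using h)
  have hgw := hg (Sum.inr ⟨fun i => e i, e.strictMono⟩ : BB N)
  have hmw := hm (Sum.inr ⟨fun i => e i, e.strictMono⟩ : BB N)
  have hgv := hg (Sum.inl ⟨fun i => e (Fin.castSucc i), hs3⟩ : BB N)
  have hmv := hm (Sum.inl ⟨fun i => e (Fin.castSucc i), hs3⟩ : BB N)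
  obtain ⟨w, hw⟩ : ∃ w : (Fin 4 → A) → A, w = g (Sum.inr ⟨fun i => e i, e.strictMono⟩ : BB N) :=
    ⟨_, rfl⟩
  obtain ⟨v, hv⟩ : ∃ v : (Fin 3 → A) → A,
      v = g (Sum.inl ⟨fun i => e (Fin.castSucc i), hs3⟩ : BB N) := ⟨_, rfl⟩
  rw [← hw] at hgw hmw
  rw [← hv] at hgv hmv
  have hmw' : ∀ p : Fin 4, minor w p = Y := fun p => (hmw p).trans (hY p)
  have hmv' : ∀ p : Fin 3, minor v p = Y := fun p => (hmv p).trans (hY (Fin.castSucc p))
  have hgv1 : v ∈ E1 3 := hgv.1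
  have hgv2 : v ∈ E2 3 := hgv.2
  have hgw1 : w ∈ E1 4 := hgw.1
  have hgw2 : w ∈ E2 4 := hgw.2
  refine ⟨v, hgv1, hgv2, w, hgw1, hgw2, ?_, ?_, ?_, ?_, ?_⟩
  · intro a
    have h := hI1 3 v hgv1 a
    have e1 : (![a, a, a] : Fin 3 → A) = fun _ => a := by
      funext i
      fin_cases i <;> rfl
    rw [e1]
    exact h
  · intro a
    have h := hI1 4 w hgw1 a
    have e1 : (![a, a, a, a] : Fin 4 → A) = fun _ => a := by
      funext i
      fin_cases i <;> rfl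
    rw [e1]
    exact h
  · exact wnu_of_minor v Y hmv'
  · intro x z
    obtain ⟨a0, a1, a2, a3⟩ := v4 w Y hmw' x z
    rw [a0, a1, a2, a3]
    exact ⟨rfl, rfl, rfl⟩
  · intro x z
    obtain ⟨a0, -, -, -⟩ := v4 w Y hmw' x z
    rw [a0, v3 v Y hmv' x z]

end Pool.Agent.W356.BW
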