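import Pool.Agent.W434.BW.StmC

/-! Project BW: reindexing of operations, minors. -/

set_option autoImplicit false
set_option linter.all false

namespace Pool.Agent.W356.BW

open Pool.Agent.W434.BW

theorem re_mem {A : Type} {E : Ops A} (hE : IsCl E) {n m : ℕ} {g : (Fin n → A) → A}
    (hg : g ∈ E n) (τ : Fin n → Fin m) : (fun x : Fin m → A => g (fun i => x (τ i))) ∈ E m :=
  hE.2 n m g (fun i x => x (τ i)) hg (fun i => hE.1 m (τ i))

theorem minor_re {A : Type} {n m : ℕ} (g : (Fin n → A) → A) (τ : Fin n → Fin m) (a : Fin m)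
    (p : Fin n) (h : ∀ i, τ i = a ↔ i = p) :
    minor (fun x => g (fun i => x (τ i))) a = minor g p := by
  funext s t
  unfold minor
  show g (fun i => if τ i = a then t else s) = g (fun i => if i = p then t else s)
  congr 1
  funext i
  simp only [h i]

theorem maj_iff {A : Type} (t : (Fin 3 → A) → A) (C P : Set A) :
    Maj3 t C P ↔ ∀ (x : Fin 3 → A) (i : Fin 3), (∀ j, j ≠ i → x j ∈ C) → x i ∈ P → t x ∈ C := by
  constructor
  · intro h x i hj hi
    have hx : x = ![x 0, x 1, x 2] := by
      funext j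
      fin_cases j <;> rfl
    rw [hx]
    fin_cases i
    · exact (h (x 1) (hj 1 (by decide)) (x 2) (hj 2 (by decide)) (x 0) hi).2.2
    · exact (h (x 0) (hj 0 (by decide)) (x 2) (hj 2 (by decide)) (x 1) hi).2.1
    · exact (h (x 0) (hj 0 (by decide)) (x 1) (hj 1 (by decide)) (x 2) hi).1
  · intro h c hc d hd x hx
    refine ⟨h _ 2 ?_ hx, h _ 1 ?_ hx, h _ 0 ?_ hx⟩
    · intro j hj
      fin_cases j
      · exact hc
      · exact hd
      · exact absurd rfl hj
    · intro j hj
      fin_cases j
      · exact hc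
      · exact absurd rfl hj
      · exact hd
    · intro j hj
      fin_cases j
      · exact absurd rfl hj
      · exact hc
      · exact hd

theorem maj_re {A : Type} {t : (Fin 3 → A) → A} {C P : Set A} (h : Maj3 t C P)
    (σ : Equiv.Perm (Fin 3)) : Maj3 (fun x => t (fun i => x (σ i))) C P := by
  rw [maj_iff] at h ⊢
  intro x i hj hi
  refine h (fun j => x (σ j)) (σ.symm i) ?_ (by simpa using hi)
  intro j hne
  exact hj (σ j) (fun he => hne (by rw [← he]; simp))

theorem exists_perm : ∀ p q : Fin 3, p ≠ q → ∃ σ : Equiv.Perm (Fin 3), σ 0 = p ∧ σ 1 = q := by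
  decide

theorem wnu_of_minor {A : Type} (v : (Fin 3 → A) → A) (Y : A → A → A) (h : ∀ p, minor v p = Y) :
    ∀ x y : A, v ![y, x, x] = v ![x, y, x] ∧ v ![x, y, x] = v ![x, x, y] := by
  intro x y
  have e0 : v ![y, x, x] = minor v 0 x y := by
    unfold minor
    congr 1
    funext i
    fin_cases i <;> rfl
  have e1 : v ![x, y, x] = minor v 1 x y := by
    unfold minor
    congr 1
    funext i
    fin_cases i <;> rfl
  have e2 : v ![x, x, y] = minor v 2 x y := by
    unfold minor
    congr 1
    funext i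
    fin_cases i <;> rfl
  rw [e0, e1, e2, h, h, h]
  exact ⟨rfl, rfl⟩

/-- pigeonhole -/
theorem pigeon {β : Type} [Finite β] [Nonempty β] (k : ℕ) (N : ℕ) (hN : k * Nat.card β < N)
    (y : Fin N → β) : ∃ (e : Fin (k + 1) ↪o Fin N) (Y : β), ∀ i, y (e i) = Y := by
  classical
  haveI := Fintype.ofFinite β
  rw [Nat.card_eq_fintype_card] at hN
  obtain ⟨Y, hY⟩ := Fintype.exists_lt_card_fiber_of_mul_lt_card (f := y) (n := k)
    (by rw [Fintype.card_fin, mul_comm]; exact hN)
  refine ⟨Finset.orderEmbOfCardLe _ (Nat.succ_le_of_lt hY), Y, fun i => ?_⟩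
  have := Finset.orderEmbOfCardLe_mem _ (Nat.succ_le_of_lt hY) i
  exact (Finset.mem_filter.mp this).2

end Pool.Agent.W356.BW
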